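import Pool.Agent.H60.SYM.Targets

open Finset
open Pool.Agent.H60.SYM

namespace Pool.Agent.H54.SYM

theorem ext : T_EXT := by
  intro V Y _ _ _ _ _ S Y₀ N D h
  have hfin : Module.Finite (ZMod 2) V := Module.Finite.of_finite
  let r : Y₀ →ₗ[ZMod 2] Module.Dual (ZMod 2) S :=
    { toFun := fun y => (N y.1).comp S.subtype
      map_add' := fun y y' => by ext v; simp
      map_smul' := fun c y => by ext v; simp }
  let D₀ : Y₀ →ₗ[ZMod 2] ZMod 2 := D.comp Y₀.subtype
  have h1 : D₀ ∈ (LinearMap.ker r).dualAnnihilator := by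
    rw [Submodule.mem_dualAnnihilator]
    intro y hy
    refine h y.1 y.2 fun v hv => ?_
    have h2 : r y = 0 := hy
    exact LinearMap.congr_fun h2 ⟨v, hv⟩
  rw [← LinearMap.range_dualMap_eq_dualAnnihilator_ker] at h1
  obtain ⟨D', hD'⟩ := h1
  refine ⟨((Module.evalEquiv (ZMod 2) S).symm D').1, ((Module.evalEquiv (ZMod 2) S).symm D').2,
    fun y hy => ?_⟩
  have h3 : D' (r ⟨y, hy⟩) = D y := LinearMap.congr_fun hD' ⟨y, hy⟩
  have h4 : Module.evalEquiv (ZMod 2) S ((Module.evalEquiv (ZMod 2) S).symm D') = D' :=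
    LinearEquiv.apply_symm_apply _ _
  have h5 := LinearMap.congr_fun h4 (r ⟨y, hy⟩)
  rw [h3] at h5
  exact h5

end Pool.Agent.H54.SYM
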