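import Pool.Agent.H60.SYM.Targets

open Finset
open Pool.Agent.H60.SYM

namespace Pool.Agent.H54.SYM

theorem toB_ne {z : ZMod 2} (h : z ≠ 0) : toB z = true := by
  have : ∀ z : ZMod 2, z ≠ 0 → z = 1 := by decide
  simp [toB, this z h]

theorem pat_sum {d : ℕ} (z : Fin d → ZMod 2) : ∑ p, pat 0 z p = 1 := by
  rw [Fin.sum_univ_succ]
  simp only [pat, Fin.cons_zero, Fin.cons_succ, add_zero]
  generalize (∑ p, z p) = w
  have : ∀ w : ZMod 2, w + 1 + w = 1 := by decide
  exact this w

theorem sat : T_SAT := by
  intro m n d M T P e E v₀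
  refine ⟨fun _ => false, fun j hj => ?_⟩
  rcases hE : E j with bz | p
  · have h1 : ∃ p, pat 0 bz.2 p ≠ 0 := by
      by_contra hc
      push Not at hc
      have := pat_sum bz.2
      rw [Finset.sum_eq_zero fun p _ => hc p] at this
      exact absurd this (by decide)
    obtain ⟨p, hp⟩ := h1
    have h2 := hj (e bz.1.1 p)
    unfold inst at h2
    simp only [hE] at h2
    have h3 : ¬ ∃ q, e bz.1.1 q = e bz.1.1 p ∧ toB (pat ((0 : Fin M → ZMod 2) bz.1.1) bz.2 q) ≠ false := by
      simpa using h2
    exact h3 ⟨p, rfl, by rw [Pi.zero_apply, toB_ne hp]; decide⟩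
  · have h2 := hj v₀
    unfold inst at h2
    simp [hE] at h2

theorem wid : T_WID := by
  classical
  intro m n d M T P e E v₀ c hd j
  rcases hE : E j with bz | p
  · have hsub : (univ.filter fun l : Fin n × Bool => inst e E v₀ c (j, l) = true) ⊆
        univ.image (fun p : Fin (d + 1) => (e bz.1.1 p, !toB (pat (c bz.1.1) bz.2 p))) := by
      intro l hl
      rw [Finset.mem_filter] at hl
      have h2 := hl.2
      unfold inst at h2
      simp only [hE] at h2
      have h3 : ∃ p, e bz.1.1 p = l.1 ∧ toB (pat (c bz.1.1) bz.2 p) ≠ l.2 := by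
        simpa using h2
      obtain ⟨p, h4, h5⟩ := h3
      rw [Finset.mem_image]
      refine ⟨p, Finset.mem_univ _, Prod.ext h4 ?_⟩
      show (!toB (pat (c bz.1.1) bz.2 p)) = l.2
      revert h5
      generalize toB (pat (c bz.1.1) bz.2 p) = x
      generalize l.2 = y
      revert x y
      decide
    refine (Finset.card_le_card hsub).trans (Finset.card_image_le.trans ?_)
    simp
  · have hsub : (univ.filter fun l : Fin n × Bool => inst e E v₀ c (j, l) = true) ⊆
        univ.image (fun b : Bool => (v₀, b)) := by
      intro l hl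
      rw [Finset.mem_filter] at hl
      have h2 := hl.2
      unfold inst at h2
      simp only [hE] at h2
      have h3 : l.1 = v₀ := by simpa using h2
      rw [Finset.mem_image]
      exact ⟨l.2, Finset.mem_univ _, Prod.ext h3.symm rfl⟩
    refine (Finset.card_le_card hsub).trans (Finset.card_image_le.trans ?_)
    simp
    omega

end Pool.Agent.H54.SYM
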