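import Pool.Agent.H60.SYM.Targets

open Finset
open Pool.Agent.H60.SYM

namespace Pool.Agent.H54.SYM

theorem pow_le_choose' : ∀ (q N : ℕ), q ≤ N → N ^ q ≤ q ^ q * N.choose q
  | 0, N, _ => by simp
  | 1, N, _ => by simp
  | (q + 2), N, h => by
    obtain ⟨N', rfl⟩ : ∃ N', N = N' + 1 := ⟨N - 1, by omega⟩
    have ih := pow_le_choose' (q + 1) N' (by omega)
    have h1 : (q + 2) * (N' + 1).choose (q + 2) = (N' + 1) * N'.choose (q + 1) := by
      have := Nat.add_one_mul_choose_eq N' (q + 1)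
      rw [mul_comm (q + 2)]
      exact this.symm
    have h2 : ((N' + 1) * (q + 1)) ^ (q + 1) ≤ ((q + 2) * N') ^ (q + 1) := by
      apply Nat.pow_le_pow_left
      nlinarith
    rw [mul_pow, mul_pow] at h2
    have h3 : (N' + 1) ^ (q + 1) * (q + 1) ^ (q + 1) ≤
        ((q + 2) ^ (q + 1) * N'.choose (q + 1)) * (q + 1) ^ (q + 1) := by
      calc (N' + 1) ^ (q + 1) * (q + 1) ^ (q + 1) ≤ (q + 2) ^ (q + 1) * N' ^ (q + 1) := h2
        _ ≤ (q + 2) ^ (q + 1) * ((q + 1) ^ (q + 1) * N'.choose (q + 1)) :=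
            Nat.mul_le_mul_left _ ih
        _ = _ := by ring
    have h4 := Nat.le_of_mul_le_mul_right h3 (by positivity)
    calc (N' + 1) ^ (q + 2) = (N' + 1) * (N' + 1) ^ (q + 1) := by ring
      _ ≤ (N' + 1) * ((q + 2) ^ (q + 1) * N'.choose (q + 1)) := Nat.mul_le_mul_left _ h4
      _ = (q + 2) ^ (q + 1) * ((N' + 1) * N'.choose (q + 1)) := by ring
      _ = (q + 2) ^ (q + 1) * ((q + 2) * (N' + 1).choose (q + 2)) := by rw [h1]
      _ = _ := by ring

theorem crow : T_CROW := by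
  intro α α₂ h0 h1
  have hα : 0 < α := lt_of_lt_of_le h0 h1
  set b : ℝ := (2 : ℝ) ^ (1 / α₂) with hb
  have hb1 : 1 ≤ b := Real.one_le_rpow (by norm_num) (by positivity)
  refine ⟨⌈α * b⌉₊, fun n N hN q hq1 hq2 => ?_⟩
  have hN' : α * b * n ≤ N := by
    have h2 : α * b ≤ (⌈α * b⌉₊ : ℝ) := Nat.le_ceil _
    have h3 : ((⌈α * b⌉₊ * n : ℕ) : ℝ) ≤ N := by exact_mod_cast hN
    push_cast at h3
    exact (mul_le_mul_of_nonneg_right h2 (Nat.cast_nonneg n)).trans h3
  rcases Nat.eq_zero_or_pos n with rfl | hn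
  · have : (q : ℝ) ≤ 0 := by simpa using hq2
    have hq : q = 0 := by exact_mod_cast le_antisymm this (Nat.cast_nonneg q)
    subst hq
    simp
  have hn' : (0 : ℝ) < n := by exact_mod_cast hn
  have hq0 : (0 : ℝ) < q := lt_of_lt_of_le (by positivity) hq1
  have hbq : b * q ≤ N := by
    calc b * q ≤ b * (α * n) := mul_le_mul_of_nonneg_left hq2 (by linarith)
      _ = α * b * n := by ring
      _ ≤ N := hN'
  have hqN : q ≤ N := by
    have : (q : ℝ) ≤ N := by nlinarith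
    exact_mod_cast this
  have h2 := pow_le_choose' q N hqN
  have h3 : ((N : ℝ)) ^ q ≤ (q : ℝ) ^ q * (N.choose q : ℝ) := by exact_mod_cast h2
  have h4 : (b * q) ^ q ≤ (N : ℝ) ^ q := pow_le_pow_left₀ (by positivity) hbq q
  rw [mul_pow] at h4
  have h5 : b ^ q ≤ (N.choose q : ℝ) := by
    have h6 : (q : ℝ) ^ q * b ^ q ≤ (q : ℝ) ^ q * (N.choose q : ℝ) := by
      calc (q : ℝ) ^ q * b ^ q = b ^ q * (q : ℝ) ^ q := mul_comm _ _
        _ ≤ _ := h4.trans h3
    exact le_of_mul_le_mul_left h6 (by positivity)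
  have h6 : (2 : ℝ) ^ n ≤ b ^ q := by
    rw [hb, ← Real.rpow_natCast, ← Real.rpow_natCast, ← Real.rpow_mul (by norm_num)]
    apply Real.rpow_le_rpow_of_exponent_le (by norm_num)
    rw [one_div_mul_eq_div, le_div_iff₀ h0]
    linarith
  have h7 : ((2 ^ n : ℕ) : ℝ) ≤ (N.choose q : ℝ) := by
    push_cast
    exact h6.trans h5
  exact_mod_cast h7

end Pool.Agent.H54.SYM
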